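import Pool.Agent.Results.MP_4e651d_al.ResidualOrder
import Pool.Agent.Lib.MP_4e651d_al.Chain

/-!
A t.d.l.c.s.c. group in which the residual order is an order relation, although the residual rank
is not well-defined and the group is not elementary.

The definitions `InK`, `Res`, `ResLE`, `ResLT`, `Hier` and `RankWellDefined` are those of
`ResidualOrder`.
-/

set_option autoImplicit false

open Set Topology
open scoped Ordinal

namespace Pool.Agent.Results.MP_4e651d_al.OrderWithoutRank

open Pool.Agent.Results.MP_4e651d_al.ResidualOrder Pool.Agent.Lib.MP_4e651d_al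

/-- `H` is a Hausdorff topological group that is totally disconnected, locally compact and
second countable. -/
def IsTdlcsc (H : Type) [Group H] [TopologicalSpace H] : Prop :=
  IsTopologicalGroup H ∧ T2Space H ∧ TotallyDisconnectedSpace H ∧ LocallyCompactSpace H ∧
    SecondCountableTopology H

/-- Wesolek's elementary groups: the smallest class of t.d.l.c.s.c. groups that contains the
discrete ones (the countable discrete groups) and the compact ones (the second countable profinite
groups) and is closed under isomorphism of topological groups, under extensions and under unions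
of increasing sequences of open subgroups. -/
inductive Elementary : (H : Type) → [Group H] → [TopologicalSpace H] → Prop
  | discrete (H : Type) [Group H] [TopologicalSpace H] :
      IsTdlcsc H → DiscreteTopology H → Elementary H
  | profinite (H : Type) [Group H] [TopologicalSpace H] :
      IsTdlcsc H → CompactSpace H → Elementary H
  | iso (H : Type) [Group H] [TopologicalSpace H] (H' : Type) [Group H'] [TopologicalSpace H'] :
      (H ≃ₜ* H') → Elementary H' → Elementary H
  | extension (H : Type) [Group H] [TopologicalSpace H] (N : Subgroup H) [N.Normal] :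
      IsTdlcsc H → IsClosed (N : Set H) → Elementary N → Elementary (H ⧸ N) → Elementary H
  | union (H : Type) [Group H] [TopologicalSpace H] (O : ℕ → Subgroup H) :
      IsTdlcsc H → Monotone O → (∀ i, IsOpen (O i : Set H)) → (∀ x, ∃ i, x ∈ O i) →
      (∀ i, Elementary (O i)) → Elementary H

theorem restrict {H : Type} [Group H] [TopologicalSpace H] {K : ℕ → Subgroup H}
    (hK : ∀ n, Gen (K n) ∧ Step (K (n + 1)) (K n)) {N : Subgroup H} {m : ℕ} (hm : K m ≤ N)
    (ih : ∀ L : ℕ → Subgroup N, (∀ n, Gen (L n) ∧ Step (L (n + 1)) (L n)) → ∃ n, L n = ⊥) :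
    ∃ n, K n = ⊥ := by
  have hle : ∀ n, K (m + n) ≤ N := fun n => by
    induction n with
    | zero => exact hm
    | succ n ih => exact (hK (m + n)).2.le.trans ih
  obtain ⟨n, hn⟩ := ih (fun n => (K (m + n)).subgroupOf N) fun n =>
    ⟨(hK (m + n)).1.subgroupOf (hle n), (hK (m + n)).2.subgroupOf (hle n)⟩
  exact ⟨m + n, (Subgroup.subgroupOf_eq_bot.1 hn).eq_bot_of_le (hle n)⟩

/-- Elementary groups have no infinite descending chains. -/
theorem Elementary.no_chain {H : Type} [Group H] [TopologicalSpace H] (h : Elementary H) :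
    ∀ K : ℕ → Subgroup H, (∀ n, Gen (K n) ∧ Step (K (n + 1)) (K n)) → ∃ n, K n = ⊥ := by
  induction h with
  | discrete H _ hd =>
    intro K hK
    refine ⟨1, eq_bot_iff.2 ((hK 0).2 ⊥ ⟨{1}, isOpen_discrete _, rfl, fun x hx _ => hx⟩ ?_)⟩
    intro k _ x hx
    rw [Subgroup.mem_bot] at hx
    simp [hx]
  | profinite H ht hc =>
    intro K hK
    obtain ⟨_, _, _, -, -⟩ := ht
    refine ⟨1, eq_bot_iff.2 fun x hx => ?_⟩
    by_contra hne
    obtain ⟨N, hN⟩ := ProfiniteGrp.exist_openNormalSubgroup_sub_open_nhds_of_one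
      (isOpen_compl_singleton (x := x)) (fun h => hne (Subgroup.mem_bot.2 h.symm))
    exact hN ((hK 0).2 N.toSubgroup ⟨N, N.isOpen, N.one_mem, fun _ h _ => h⟩
      (fun k _ y hy => N.isNormal'.conj_mem y hy k) hx) rfl
  | iso H H' e _ ih =>
    intro K hK
    obtain ⟨n, hn⟩ := ih (fun n => (K n).map (e : H →* H')) fun n =>
      ⟨(hK n).1.map _ e.continuous, (hK n).2.map _ e.continuous⟩
    exact ⟨n, (Subgroup.map_eq_bot_iff_of_injective _ e.injective).1 hn⟩
  | extension H N _ _ _ _ ih1 ih2 =>
    intro K hK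
    obtain ⟨m, hm⟩ := ih2 (fun n => (K n).map (QuotientGroup.mk' N)) fun n =>
      ⟨(hK n).1.map _ QuotientGroup.continuous_mk, (hK n).2.map _ QuotientGroup.continuous_mk⟩
    rw [Subgroup.map_eq_bot_iff, QuotientGroup.ker_mk'] at hm
    exact restrict hK hm ih1
  | union H O _ hmono hopen hcov _ ih =>
    intro K hK
    obtain ⟨S, hS, e⟩ := (hK 0).1
    obtain ⟨i, hi⟩ := hS.elim_directed_cover (fun i => (O i : Set H)) hopen
      (fun x _ => mem_iUnion.2 (hcov x)) (Monotone.directed_le fun _ _ h => hmono h)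
    exact restrict hK (m := 0) (e ▸ (Subgroup.closure_le _).2 hi) (ih i)

section

variable {H : Type} [Group H] [TopologicalSpace H] [IsTopologicalGroup H]

omit [IsTopologicalGroup H] in
theorem le_res_iff {K K' : Subgroup H} : K' ≤ Res K ↔
    ∀ O : Subgroup H, IsOpen (O : Set H) → (∀ k ∈ K, ∀ x ∈ O, k * x * k⁻¹ ∈ O) → K' ≤ O := by
  rw [Res, le_sInf_iff]
  refine forall_congr' fun O => ?_
  rw [mem_ofPred_eq, and_imp]
  refine imp_congr_right fun _ => imp_congr_left ⟨fun h k hk x hx => ?_, fun h k hk => ?_⟩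
  · obtain ⟨y, hy, e⟩ : k * x ∈ (fun x => x * k) '' (O : Set H) := h k hk ▸ ⟨x, hx, rfl⟩
    rw [← e]
    simpa using hy
  · ext y
    constructor
    · rintro ⟨x, hx, rfl⟩
      exact ⟨k * x * k⁻¹, h k hk x hx, by simp⟩
    · rintro ⟨x, hx, rfl⟩
      exact ⟨k⁻¹ * x * k⁻¹⁻¹, h _ (K.inv_mem hk) x hx, by simp [mul_assoc]⟩

theorem inK_closure [LocallyCompactSpace H] {K : Subgroup H} (h : Gen K) :
    InK K.topologicalClosure := by
  obtain ⟨S, hS, rfl⟩ := h
  obtain ⟨C, hC, h1⟩ := exists_compact_mem_nhds (1 : H)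
  have hcl := (Subgroup.closure S).isClosed_topologicalClosure
  refine ⟨hcl, S ∪ C ∩ (Subgroup.closure S).topologicalClosure, hS.union (hC.inter_right hcl),
    le_antisymm ((Subgroup.closure_le _).2 ?_) fun x hx => ?_⟩
  · rintro y (hy | hy)
    · exact Subgroup.le_topologicalClosure _ (Subgroup.subset_closure hy)
    · exact hy.2
  · have hn : (fun y => x⁻¹ * y) ⁻¹' C ∈ 𝓝 x := by
      rw [← nhds_translation_inv_mul]
      exact Filter.preimage_mem_comap h1
    obtain ⟨y, hy1, hy2⟩ := mem_closure_iff_nhds.1 hx _ hn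
    have : x = y * (x⁻¹ * y)⁻¹ := by group
    rw [this]
    refine Subgroup.mul_mem _ (Subgroup.closure_mono subset_union_left hy2)
      (Subgroup.inv_mem _ (Subgroup.subset_closure (Or.inr ⟨hy1, ?_⟩)))
    exact Subgroup.mul_mem _ (Subgroup.inv_mem _ hx) (Subgroup.le_topologicalClosure _ hy2)

theorem closure_le_res {K K' : Subgroup H} (h : Step K' K) :
    K'.topologicalClosure ≤ Res K.topologicalClosure := by
  refine le_res_iff.2 fun O hO hn => Subgroup.topologicalClosure_minimal _ ?_
    (O.isClosed_of_isOpen hO)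
  exact h O ⟨O, hO, O.one_mem, fun _ h _ => h⟩ fun k hk => hn k (K.le_topologicalClosure hk)

end

theorem self_res {K : Subgroup G} (hK : InK K) (h : K ≤ Res K) : K = ⊥ := by
  obtain ⟨-, S, hS, rfl⟩ := hK
  exact SelfRes.eq_bot_of_compact hS (le_res_iff.1 h)

theorem not_rank : ¬ RankWellDefined G := by
  obtain ⟨K, hK⟩ := exists_chain
  let M : ℕ → Subgroup G := fun n => (K n).topologicalClosure
  have h1 : ∀ n, InK (M n) := fun n => inK_closure (hK n).1
  have h2 : ∀ n, M n ≠ ⊥ := fun n h =>
    (hK n).2.1 (eq_bot_iff.2 ((K n).le_topologicalClosure.trans h.le))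
  have h3 : ∀ n, M (n + 1) ≤ Res (M n) := fun n => closure_le_res (hK n).2.2
  have key : ∀ α : Ordinal.{0}, ∀ n, M n ∉ Hier G α := fun α => by
    induction α using WellFoundedLT.induction with
    | _ α ih =>
      intro n hα
      rcases lt_trichotomy α 1 with h | rfl | h
      · rw [Order.lt_one_iff.1 h, hier_zero] at hα
        exact h2 n hα
      · rw [hier_one] at hα
        exact h2 (n + 1) (eq_bot_iff.2 (hα.2 ▸ h3 n))
      · rw [hier_of_one_lt h] at hα
        obtain ⟨β, hβ, hm⟩ := hα.2 _ (h1 (n + 1)) ⟨Or.inl (h3 n), fun e =>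
          h2 n (self_res (h1 n) (e.ge.trans (h3 n)))⟩
        exact ih β hβ _ hm
  intro h
  have : M 0 ∈ {K : Subgroup G | InK K} := h1 0
  rw [RankWellDefined] at h
  rw [h] at this
  obtain ⟨α, -, hα⟩ := mem_iUnion₂.1 this
  exact key α 0 hα

/-- There is a t.d.l.c.s.c. group that is not elementary and whose residual rank is not
well-defined, but whose residual order is an order relation (reflexive, transitive,
antisymmetric) on `𝒦(G)`. -/
theorem result : ∃ (G : Type) (_ : Group G) (_ : TopologicalSpace G), IsTdlcsc G ∧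
    IsPartialOrder {K : Subgroup G // InK K} (fun K₁ K₂ => ResLE K₁.1 K₂.1) ∧
    ¬ RankWellDefined G ∧ ¬ Elementary G := by
  refine ⟨G, inferInstance, inferInstance,
    ⟨inferInstance, inferInstance, inferInstance, inferInstance, inferInstance⟩,
    { refl := ?_, trans := ?_, antisymm := ?_ }, not_rank, fun h => ?_⟩
  · intro K; exact Or.inr rfl
  · rintro K₁ K₂ K₃ (h₁ | h₁) (h₂ | h₂)
    · exact Or.inl (le_res_trans h₁ h₂)
    · exact Or.inl (h₂ ▸ h₁)
    · exact Or.inl (h₁ ▸ h₂)
    · exact Or.inr (h₁.trans h₂)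
  · rintro K₁ K₂ (h₁ | h₁) (h₂ | h₂)
    · exact Subtype.ext ((self_res K₁.2 (le_res_trans h₁ h₂)).trans
        (self_res K₂.2 (le_res_trans h₂ h₁)).symm)
    · exact Subtype.ext h₂.symm
    · exact Subtype.ext h₁
    · exact Subtype.ext h₁
  · obtain ⟨K, hK⟩ := exists_chain
    obtain ⟨n, hn⟩ := h.no_chain K fun n => ⟨(hK n).1, (hK n).2.2⟩
    exact (hK n).2.1 hn

end Pool.Agent.Results.MP_4e651d_al.OrderWithoutRank
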