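import Pool.Agent.Lib.MP_4e651d_al.H87Env

/-!
Residual order and residual rank in t.d.l.c.s.c. groups: the residual rank is well-defined exactly
when the residual order is an order relation without infinite descending chains, and then the
hierarchy stops at a countable ordinal.
-/

set_option autoImplicit false

open Set Topology
open scoped Pointwise Ordinal

namespace Pool.Agent.Results.MP_4e651d_al.ResidualOrder

variable {G : Type*} [Group G] [TopologicalSpace G]

/-- `K` lies in `𝒦(G)`: `K` is a closed subgroup generated as a group by a compact subset. -/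
def InK (K : Subgroup G) : Prop :=
  IsClosed (K : Set G) ∧ ∃ S : Set G, IsCompact S ∧ Subgroup.closure S = K

/-- The discrete residual `Res_G(K)`: the intersection of all open subgroups `O` of `G` with
`kO = Ok` for every `k ∈ K`. -/
def Res (K : Subgroup G) : Subgroup G :=
  sInf {O : Subgroup G | IsOpen (O : Set G) ∧
    ∀ k ∈ K, (fun x => k * x) '' (O : Set G) = (fun x => x * k) '' (O : Set G)}

/-- The residual order: `K₁ ≼ K₂` iff `K₁ ≤ Res_G(K₂)` or `K₁ = K₂`. -/
def ResLE (K₁ K₂ : Subgroup G) : Prop :=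
  K₁ ≤ Res K₂ ∨ K₁ = K₂

/-- The strict residual order: `K₁ ≺ K₂` iff `K₁ ≼ K₂` and `K₁ ≠ K₂`. -/
def ResLT (K₁ K₂ : Subgroup G) : Prop :=
  ResLE K₁ K₂ ∧ K₁ ≠ K₂

open Classical in
/-- The residual hierarchy `𝒦_α(G)`, by transfinite recursion on the ordinal `α`:
`𝒦_0 = {1}`, `𝒦_1 = {K ∈ 𝒦(G) : Res_G(K) = 1}`, and for `α > 1` the set of `K ∈ 𝒦(G)` such
that every `L ∈ 𝒦(G)` with `L ≺ K` lies in `𝒦_β` for some `β < α`. -/
noncomputable def Hier (G : Type*) [Group G] [TopologicalSpace G] (α : Ordinal.{0}) :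
    Set (Subgroup G) :=
  if α = 0 then {⊥}
  else if α = 1 then {K | InK K ∧ Res K = ⊥}
  else {K | InK K ∧ ∀ L, InK L → ResLT L K → ∃ β : Set.Iio α, L ∈ Hier G β.1}
termination_by α
decreasing_by exact β.2

/-- The residual rank of `G` is well-defined: `𝒦(G) = ⋃_{α < ω₁} 𝒦_α(G)`. -/
def RankWellDefined (G : Type*) [Group G] [TopologicalSpace G] : Prop :=
  {K : Subgroup G | InK K} = ⋃ α ∈ Set.Iio (ω_ 1 : Ordinal.{0}), Hier G α

theorem hier_zero : Hier G 0 = {⊥} := by
  rw [Hier]; simp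

theorem hier_one : Hier G 1 = {K | InK K ∧ Res K = ⊥} := by
  rw [Hier]; simp

theorem hier_of_one_lt {α : Ordinal.{0}} (h : 1 < α) :
    Hier G α = {K | InK K ∧ ∀ L, InK L → ResLT L K → ∃ β < α, L ∈ Hier G β} := by
  have h0 : α ≠ 0 := (lt_trans zero_lt_one h).ne'
  rw [Hier, if_neg h0, if_neg h.ne']
  ext K
  simp only [mem_ofPred_eq, Subtype.exists, mem_Iio, exists_prop]

theorem le_res_trans {K₁ K₂ K₃ : Subgroup G} (h₁ : K₁ ≤ Res K₂) (h₂ : K₂ ≤ Res K₃) :
    K₁ ≤ Res K₃ := by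
  refine le_sInf ?_
  intro O hO
  have h2O : K₂ ≤ O := h₂.trans (sInf_le hO)
  refine h₁.trans (sInf_le ⟨hO.1, ?_⟩)
  intro k hk
  have hkO : k ∈ O := h2O hk
  ext y
  constructor
  · rintro ⟨x, hx, rfl⟩
    exact ⟨k * x * k⁻¹, O.mul_mem (O.mul_mem hkO hx) (O.inv_mem hkO), by simp⟩
  · rintro ⟨x, hx, rfl⟩
    exact ⟨k⁻¹ * x * k, O.mul_mem (O.mul_mem (O.inv_mem hkO) hx) hkO, by simp [mul_assoc]⟩

/-- van Dantzig: the open subgroups of a t.d.l.c. group intersect trivially. -/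
theorem res_bot [IsTopologicalGroup G] [T2Space G] [LocallyCompactSpace G]
    [TotallyDisconnectedSpace G] : Res (⊥ : Subgroup G) = ⊥ := by
  rw [eq_bot_iff]
  intro g hg
  by_contra hne
  have hne' : g ≠ 1 := by simpa using hne
  obtain ⟨C, hCc, hC1⟩ := exists_compact_mem_nhds (1 : G)
  have hU : interior C ∩ {g}ᶜ ∈ 𝓝 (1 : G) :=
    Filter.inter_mem (interior_mem_nhds.2 hC1) (isOpen_compl_singleton.mem_nhds hne'.symm)
  obtain ⟨W, hWclopen, h1W, hWsub⟩ :=
    (loc_compact_Haus_tot_disc_of_zero_dim (H := G)).mem_nhds_iff.1 hU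
  have hWcl : IsClopen W := hWclopen
  have hWc : IsCompact W :=
    hCc.of_isClosed_subset hWcl.isClosed fun x hx => interior_subset (hWsub hx).1
  obtain ⟨V, hV1, hWV⟩ := compact_open_separated_mul_right hWc hWcl.isOpen subset_rfl
  have hV' : V ∩ V⁻¹ ∈ 𝓝 (1 : G) := Filter.inter_mem hV1 (inv_mem_nhds_one G hV1)
  let O : Subgroup G := Subgroup.closure (V ∩ V⁻¹)
  have hOopen : IsOpen (O : Set G) :=
    Subgroup.isOpen_of_mem_nhds O (Filter.mem_of_superset hV' Subgroup.subset_closure)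
  have key : ∀ x ∈ O, ∀ w ∈ W, w * x ∈ W ∧ w * x⁻¹ ∈ W := by
    intro x hx
    induction hx using Subgroup.closure_induction with
    | mem x hx =>
      intro w hw
      exact ⟨hWV (Set.mul_mem_mul hw hx.1), hWV (Set.mul_mem_mul hw hx.2)⟩
    | one => intro w hw; simpa using hw
    | mul x y _ _ ihx ihy =>
      intro w hw
      refine ⟨?_, ?_⟩
      · rw [← mul_assoc]; exact (ihy _ (ihx w hw).1).1
      · rw [mul_inv_rev, ← mul_assoc]; exact (ihx _ (ihy w hw).2).2
    | inv x _ ihx =>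
      intro w hw
      exact ⟨(ihx w hw).2, by rw [inv_inv]; exact (ihx w hw).1⟩
  have hgO : g ∈ O := by
    refine (sInf_le (s := {O : Subgroup G | IsOpen (O : Set G) ∧
      ∀ k ∈ (⊥ : Subgroup G),
        (fun x => k * x) '' (O : Set G) = (fun x => x * k) '' (O : Set G)}) ⟨hOopen, ?_⟩ :
        Res (⊥ : Subgroup G) ≤ O) hg
    intro k hk
    rw [Subgroup.mem_bot] at hk
    subst hk
    simp
  have := (key g hgO 1 h1W).1
  rw [one_mul] at this
  exact (hWsub this).2 rfl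

theorem no_cycle [IsTopologicalGroup G] [T2Space G] [LocallyCompactSpace G]
    [TotallyDisconnectedSpace G] (α : Ordinal.{0}) :
    ∀ K₁ K₂ : Subgroup G, InK K₁ → InK K₂ → K₁ ∈ Hier G α → K₁ ≤ Res K₂ → K₂ ≤ Res K₁ →
      K₁ = K₂ := by
  induction α using WellFoundedLT.induction with
  | _ α ih =>
    intro K₁ K₂ hK₁ hK₂ hα h12 h21
    rcases lt_trichotomy α 1 with h | h | h
    · have h0 : α = 0 := Order.lt_one_iff.1 h
      subst h0
      rw [hier_zero, mem_singleton_iff] at hα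
      subst hα
      rw [res_bot] at h21
      exact (le_bot_iff.1 h21).symm
    · subst h
      rw [hier_one] at hα
      rw [hα.2, le_bot_iff] at h21
      subst h21
      rw [res_bot] at h12
      exact le_bot_iff.1 h12
    · by_contra hne
      rw [hier_of_one_lt h] at hα
      obtain ⟨β, hβ, hK₂β⟩ := hα.2 K₂ hK₂ ⟨Or.inl h21, fun h => hne h.symm⟩
      exact hne (ih β hβ K₂ K₁ hK₂ hK₁ hK₂β h21 h12).symm

/-- Every t.d.l.c.s.c. group with well-defined residual rank has the residual order as an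
order relation (reflexive, transitive, antisymmetric) on `𝒦(G)`. -/
theorem order_of_rank (G : Type*) [Group G] [TopologicalSpace G] [IsTopologicalGroup G] [T2Space G]
    [TotallyDisconnectedSpace G] [LocallyCompactSpace G] [SecondCountableTopology G]
    (h : RankWellDefined G) :
    IsPartialOrder {K : Subgroup G // InK K} (fun K₁ K₂ => ResLE K₁.1 K₂.1) := by
  refine { refl := ?_, trans := ?_, antisymm := ?_ }
  · intro K; exact Or.inr rfl
  · rintro K₁ K₂ K₃ (h₁ | h₁) (h₂ | h₂)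
    · exact Or.inl (le_res_trans h₁ h₂)
    · exact Or.inl (h₂ ▸ h₁)
    · exact Or.inl (h₁ ▸ h₂)
    · exact Or.inr (h₁.trans h₂)
  · rintro K₁ K₂ (h₁ | h₁) (h₂ | h₂)
    · have hK₁ : K₁.1 ∈ {K : Subgroup G | InK K} := K₁.2
      rw [RankWellDefined] at h
      rw [h] at hK₁
      obtain ⟨α, -, hα⟩ := Set.mem_iUnion₂.1 hK₁
      exact Subtype.ext (no_cycle α _ _ K₁.2 K₂.2 hα h₁ h₂)
    · exact Subtype.ext h₂.symm
    · exact Subtype.ext h₁
    · exact Subtype.ext h₁

omit [TopologicalSpace G] in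
theorem norm_iff {K O : Subgroup G} :
    (∀ k ∈ K, (fun x => k * x) '' (O : Set G) = (fun x => x * k) '' (O : Set G)) ↔
      ∀ k ∈ K, ∀ x ∈ O, k * x * k⁻¹ ∈ O := by
  refine ⟨fun h k hk x hx => ?_, fun h k hk => ?_⟩
  · obtain ⟨y, hy, e⟩ : k * x ∈ (fun x => x * k) '' (O : Set G) := h k hk ▸ ⟨x, hx, rfl⟩
    rw [← e]
    simpa using hy
  · ext y
    constructor
    · rintro ⟨x, hx, rfl⟩
      exact ⟨k * x * k⁻¹, h k hk x hx, by simp⟩
    · rintro ⟨x, hx, rfl⟩
      exact ⟨k⁻¹ * x * k⁻¹⁻¹, h _ (K.inv_mem hk) x hx, by simp [mul_assoc]⟩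

section

variable [IsTopologicalGroup G] [T2Space G] [TotallyDisconnectedSpace G] [LocallyCompactSpace G]

/-- There are only countably many discrete residuals. -/
theorem countable_res [SecondCountableTopology G] : (Res '' {K : Subgroup G | InK K}).Countable := by
  obtain ⟨W, w1, w2⟩ := Pool.Agent.Lib.MP_4e651d_al.H87.exists_compact_open (G := G)
  refine ((Pool.Agent.Lib.MP_4e651d_al.H87.countable_compact_open G).image
    fun C => Res (Subgroup.closure C)).mono ?_
  rintro _ ⟨_, ⟨-, S, hS, rfl⟩, rfl⟩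
  obtain ⟨C, c1, c2, c3, c4⟩ := Pool.Agent.Lib.MP_4e651d_al.H87.envelope w1 w2 hS
  refine ⟨C, ⟨c1, c2⟩, le_antisymm (le_sInf fun O hO => ?_) (sInf_le_sInf fun O hO =>
    ⟨hO.1, fun k hk => hO.2 k (Subgroup.closure_mono c3 hk)⟩)⟩
  obtain ⟨O', o1, o2, o3⟩ := c4 O hO.1 (norm_iff.1 hO.2)
  exact le_trans (sInf_le ⟨o1, norm_iff.2 o3⟩) o2

theorem acc_of_hier (α : Ordinal.{0}) : ∀ K : {K : Subgroup G // InK K}, K.1 ∈ Hier G α →
    Acc (fun K₁ K₂ : {K : Subgroup G // InK K} => ResLT K₁.1 K₂.1) K := by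
  induction α using WellFoundedLT.induction with
  | _ α ih =>
    intro K hK
    refine ⟨_, fun L hL => ?_⟩
    have h1 : L.1 ≤ Res K.1 := hL.1.resolve_right hL.2
    rcases lt_trichotomy α 1 with h | rfl | h
    · obtain rfl := Order.lt_one_iff.1 h
      rw [hier_zero, mem_singleton_iff] at hK
      rw [hK, res_bot, le_bot_iff] at h1
      exact absurd (h1.trans hK.symm) hL.2
    · rw [hier_one] at hK
      rw [hK.2, le_bot_iff] at h1
      exact ih 0 zero_lt_one L (by rw [hier_zero]; exact h1)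
    · rw [hier_of_one_lt h] at hK
      obtain ⟨β, b1, b2⟩ := hK.2 L L.2 hL
      exact ih β b1 L b2

omit [IsTopologicalGroup G] [T2Space G] [LocallyCompactSpace G] in
theorem inK_of_hier {α : Ordinal.{0}} {K : Subgroup G} (h : K ∈ Hier G α) : InK K := by
  rcases lt_trichotomy α 1 with c | rfl | c
  · obtain rfl := Order.lt_one_iff.1 c
    rw [hier_zero, mem_singleton_iff] at h
    exact h ▸ ⟨by simp, ∅, isCompact_empty, Subgroup.closure_empty⟩
  · rw [hier_one] at h
    exact h.1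
  · rw [hier_of_one_lt c] at h
    exact h.1

/-- A countable bound for the levels of any family of members of the hierarchy. -/
theorem exists_bound [SecondCountableTopology G]
    (hw : WellFounded fun K₁ K₂ : {K : Subgroup G // InK K} => ResLT K₁.1 K₂.1)
    (P : Subgroup G → Prop) (hP : ∀ L, InK L → P L → ∃ β < ω_ 1, L ∈ Hier G β) :
    ∃ α < ω_ 1, ∀ L, InK L → P L → ∃ β ≤ α, L ∈ Hier G β := by
  have same : ∀ L L' : Subgroup G, InK L → InK L' → Res L = Res L' → (L ≤ Res L ↔ L' ≤ Res L') →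
      ∀ β, L ∈ Hier G β → L' ∈ Hier G β := by
    intro L L' hL hL' e hi β hβ
    by_cases c : L ≤ Res L
    · by_cases c2 : L = L'
      · exact c2 ▸ hβ
      · exact (hw.asymmetric ⟨L, hL⟩ ⟨L', hL'⟩ ⟨Or.inl (e ▸ c), c2⟩
          ⟨Or.inl (e ▸ hi.1 c), Ne.symm c2⟩).elim
    · rcases lt_trichotomy β 1 with h | rfl | h
      · obtain rfl := Order.lt_one_iff.1 h
        rw [hier_zero, mem_singleton_iff] at hβ
        exact absurd (hβ ▸ bot_le) c
      · rw [hier_one] at hβ ⊢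
        exact ⟨hL', e ▸ hβ.2⟩
      · rw [hier_of_one_lt h] at hβ ⊢
        refine ⟨hL', fun M hM h1 => hβ.2 M hM ?_⟩
        have h2 : M ≤ Res L := e ▸ h1.1.resolve_right h1.2
        exact ⟨Or.inl h2, fun c2 => c (c2 ▸ h2)⟩
  have := (countable_res (G := G)).to_subtype
  have ex : ∀ i : (Res '' {K : Subgroup G | InK K}) × Prop, ∃ β < ω_ 1, ∀ L, InK L → P L →
      Res L = i.1.1 → (L ≤ Res L ↔ i.2) → L ∈ Hier G β := fun i => by
    by_cases c : ∃ L, InK L ∧ P L ∧ Res L = i.1.1 ∧ (L ≤ Res L ↔ i.2)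
    · obtain ⟨L, l1, l2, l3, l4⟩ := c
      obtain ⟨β, b1, b2⟩ := hP L l1 l2
      exact ⟨β, b1, fun L' m1 _ m3 m4 => same L L' l1 m1 (l3.trans m3.symm) (l4.trans m4.symm) β b2⟩
    · exact ⟨0, Ordinal.omega_pos 1, fun L l1 l2 l3 l4 => absurd ⟨L, l1, l2, l3, l4⟩ c⟩
  choose f f1 f2 using ex
  exact ⟨⨆ i, f i, Ordinal.iSup_lt_omega_one f1, fun L l1 l2 =>
    ⟨f (⟨Res L, L, l1, rfl⟩, L ≤ Res L), le_ciSup ⟨ω_ 1, by rintro _ ⟨i, rfl⟩; exact (f1 i).le⟩ _,
      f2 _ L l1 l2 rfl Iff.rfl⟩⟩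

end

/-- For a t.d.l.c.s.c. group the following are equivalent: the residual rank is well-defined; the
residual order is an order relation on `𝒦(G)` whose strict form is well-founded; the hierarchy
exhausts `𝒦(G)` at levels bounded by one countable ordinal. -/
theorem result (G : Type*) [Group G] [TopologicalSpace G] [IsTopologicalGroup G] [T2Space G]
    [TotallyDisconnectedSpace G] [LocallyCompactSpace G] [SecondCountableTopology G] :
    List.TFAE
      [RankWellDefined G,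
        IsPartialOrder {K : Subgroup G // InK K} (fun K₁ K₂ => ResLE K₁.1 K₂.1) ∧
          WellFounded fun K₁ K₂ : {K : Subgroup G // InK K} => ResLT K₁.1 K₂.1,
        ∃ α < (ω_ 1 : Ordinal.{0}), {K : Subgroup G | InK K} = ⋃ β ∈ Set.Iic α, Hier G β] := by
  tfae_have 1 → 2 := fun h => ⟨order_of_rank G h, ⟨fun K => by
    obtain ⟨α, -, hα⟩ := mem_iUnion₂.1 (h.subset K.2)
    exact acc_of_hier α K hα⟩⟩
  tfae_have 2 → 3 := fun ⟨_, hw⟩ => by
    have all : ∀ K : {K : Subgroup G // InK K}, ∃ β < ω_ 1, K.1 ∈ Hier G β := fun K => by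
      induction K using hw.induction with
      | _ K ih =>
        obtain ⟨α, a1, a2⟩ := exists_bound hw (fun L => ResLT L K.1) fun L hL h => ih ⟨L, hL⟩ h
        have h1 : Order.IsSuccLimit (ω_ 1 : Ordinal.{0}) := Cardinal.isSuccLimit_omega 1
        refine ⟨Order.succ (max α 1), h1.succ_lt (max_lt a1 (Ordinal.one_lt_omega0.trans
          Ordinal.omega0_lt_omega_one)), ?_⟩
        rw [hier_of_one_lt (Order.lt_succ_of_le (le_max_right _ _))]
        exact ⟨K.2, fun L hL h => let ⟨β, b1, b2⟩ := a2 L hL h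
          ⟨β, Order.lt_succ_of_le (b1.trans (le_max_left _ _)), b2⟩⟩
    obtain ⟨α, a1, a2⟩ := exists_bound hw (fun _ => True) fun L hL _ => all ⟨L, hL⟩
    exact ⟨α, a1, subset_antisymm (fun K hK => let ⟨β, b1, b2⟩ := a2 K hK trivial
      mem_iUnion₂.2 ⟨β, b1, b2⟩) (iUnion₂_subset fun β _ K hK => inK_of_hier hK)⟩
  tfae_have 3 → 1 := fun ⟨α, a1, a2⟩ => subset_antisymm
    (a2.subset.trans (biUnion_subset_biUnion_left fun β hβ => lt_of_le_of_lt hβ a1))
    (iUnion₂_subset fun β _ K hK => inK_of_hier hK)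
  tfae_finish

end Pool.Agent.Results.MP_4e651d_al.ResidualOrder
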